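import Pool.Agent.K1H17.ST.Stm

/-!
# The cone generated by vectors near the coordinate rays
-/

set_option autoImplicit false

open Pool.Agent.K1H17.ST

namespace Pool.Agent.K1H52.ST

theorem t_CON : S_CON := by
  intro n T
  have hT := abs_nonneg T
  have hn0 : (0 : ℝ) ≤ n := Nat.cast_nonneg n
  refine ⟨2 * n * (|T| + 1) + 1, by positivity, ?_⟩
  set B : ℝ := 2 * n * (|T| + 1) + 1 with hB
  have hB0 : 0 < B := by positivity
  have hB1 : 2 * n < B := by
    rw [hB]; nlinarith
  have hB2 : 2 * n * |T| < B := by
    rw [hB]; nlinarith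
  intro v hv hd y hy
  have hvB : ∀ i j, j ≠ i → v i j ≤ v i i / B := by
    intro i j hj
    rw [le_div_iff₀ hB0, mul_comm]
    exact hd i j hj
  let M : Matrix (Fin n) (Fin n) ℝ := fun j i => v i j
  have hdet : M.det ≠ 0 := by
    apply det_ne_zero_of_sum_col_lt_diag
    intro i
    have h1 : ∑ j ∈ Finset.univ.erase i, ‖M j i‖ ≤ ∑ j ∈ Finset.univ.erase i, v i i / B := by
      apply Finset.sum_le_sum
      intro j hj
      show ‖v i j‖ ≤ _
      rw [Real.norm_of_nonneg (hv i j).le]
      exact hvB i j (Finset.ne_of_mem_erase hj)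
    refine lt_of_le_of_lt h1 ?_
    rw [Finset.sum_const, nsmul_eq_mul]
    show _ < ‖v i i‖
    rw [Real.norm_of_nonneg (hv i i).le]
    have h2 : ((Finset.univ.erase i).card : ℝ) ≤ n := by
      have := Finset.card_le_univ (Finset.univ.erase i)
      rw [Fintype.card_fin] at this
      exact_mod_cast this
    have h3 : 0 < v i i := hv i i
    have h4 : ((Finset.univ.erase i).card : ℝ) < B := by linarith
    rw [mul_div_assoc', div_lt_iff₀ hB0]
    nlinarith
  have hunit : IsUnit M.det := isUnit_iff_ne_zero.2 hdet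
  let a : Fin n → ℝ := M⁻¹.mulVec y
  have ha : M.mulVec a = y := by
    show M.mulVec (M⁻¹.mulVec y) = y
    rw [Matrix.mulVec_mulVec, Matrix.mul_nonsing_inv _ hunit, Matrix.one_mulVec]
  have hay : ∀ j, y j = ∑ i, a i * v i j := by
    intro j
    have := congrFun ha j
    rw [← this]
    simp only [Matrix.mulVec, dotProduct, M]
    exact Finset.sum_congr rfl fun i _ => mul_comm _ _
  refine ⟨a, ?_, hay⟩
  intro j0
  obtain ⟨p, -, hp⟩ := Finset.exists_max_image Finset.univ (fun i => |a i * v i i|)
    ⟨j0, Finset.mem_univ _⟩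
  set β := |a p * v p p| with hβ
  have hβ0 : 0 ≤ β := abs_nonneg _
  have key : ∀ j, |y j - a j * v j j| ≤ n * (β / B) := by
    intro j
    have e : y j - a j * v j j = ∑ i ∈ Finset.univ.erase j, a i * v i j := by
      rw [hay j, ← Finset.add_sum_erase _ _ (Finset.mem_univ j)]
      ring
    rw [e]
    refine (Finset.abs_sum_le_sum_abs _ _).trans ?_
    have h1 : ∀ i ∈ Finset.univ.erase j, |a i * v i j| ≤ β / B := by
      intro i hi
      have h2 : v i j ≤ v i i / B := hvB i j (Finset.ne_of_mem_erase hi).symm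
      have h3 := hp i (Finset.mem_univ _)
      simp only [abs_mul, abs_of_pos (hv i i)] at h3
      rw [abs_mul, abs_of_pos (hv i j)]
      calc |a i| * v i j ≤ |a i| * (v i i / B) := mul_le_mul_of_nonneg_left h2 (abs_nonneg _)
        _ = (|a i| * v i i) / B := by ring
        _ ≤ β / B := by
          apply div_le_div_of_nonneg_right _ hB0.le
          exact h3
    refine (Finset.sum_le_sum h1).trans ?_
    rw [Finset.sum_const, nsmul_eq_mul]
    apply mul_le_mul_of_nonneg_right _ (by positivity)
    have := Finset.card_le_univ (Finset.univ.erase j)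
    rw [Fintype.card_fin] at this
    exact_mod_cast this
  have hβT : β ≤ 2 * |T| := by
    have h1 := key p
    have h2 := hy p
    have h3 : |y p| ≤ |T| := by
      rw [abs_of_pos (by linarith)]
      exact h2.2.trans (le_abs_self T)
    have h4 : β ≤ |y p| + |y p - a p * v p p| := by
      have : a p * v p p = y p - (y p - a p * v p p) := by ring
      rw [hβ]
      conv_lhs => rw [this]
      exact abs_sub _ _
    have h5 : n * (β / B) ≤ β / 2 := by
      rw [mul_div_assoc', div_le_div_iff₀ hB0 (by norm_num)]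
      nlinarith
    linarith
  have h6 : n * (β / B) ≤ 1 := by
    rw [mul_div_assoc', div_le_one hB0]
    nlinarith
  have h7 := (abs_le.1 (key j0)).2
  have h8 := (hy j0).1
  have h9 : 0 ≤ a j0 * v j0 j0 := by linarith
  exact nonneg_of_mul_nonneg_left h9 (hv j0 j0)

end Pool.Agent.K1H52.ST
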